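import Pool.Agent.Q28.TM.Stm

set_option autoImplicit false

/-!
Project TM (helper28), job CLO: a countable closure operator for closed triples.
-/

namespace Pool.Agent.Q247.TM

open Pool.Agent.Q28.TM Pool.Agent.Helper316

/-- `P E` holds for all closed sets of a countable closure operator -/
def CO {Ω : Type} (P : Set Ω → Prop) : Prop :=
  ∃ F : Finset Ω → Set Ω, (∀ s, (F s).Countable) ∧ ∀ E, FCV.Closed F E → P E

theorem CO.and {Ω : Type} {P Q : Set Ω → Prop} (hP : CO P) (hQ : CO Q) : CO (fun E => P E ∧ Q E) := by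
  obtain ⟨F, hF, hFE⟩ := hP
  obtain ⟨G, hG, hGE⟩ := hQ
  refine ⟨fun s => F s ∪ G s, fun s => (hF s).union (hG s), fun E hE =>
    ⟨hFE E fun s hs => ?_, hGE E fun s hs => ?_⟩⟩
  · exact Set.subset_union_left.trans (hE s hs)
  · exact Set.subset_union_right.trans (hE s hs)

theorem CO.const {Ω : Type} (S : Set Ω) (hS : S.Countable) : CO (fun E => S ⊆ E) := by
  refine ⟨fun _ => S, fun _ => hS, fun E hE => ?_⟩
  exact hE ∅ (by simp)

theorem CO.rule {Ω : Type} (g : Finset Ω → Ω → Ω → Set Ω) (hg : ∀ t q q', (g t q q').Countable) :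
    CO (fun E => ∀ t : Finset Ω, ↑t ⊆ E → ∀ q ∈ E, ∀ q' ∈ E, g t q q' ⊆ E) := by
  classical
  refine ⟨fun s => ⋃ t ∈ (s.powerset : Set (Finset Ω)), ⋃ q ∈ (s : Set Ω), ⋃ q' ∈ (s : Set Ω), g t q q',
    fun s => ?_, fun E hE t ht q hq q' hq' => ?_⟩
  · refine Set.Countable.biUnion (Finset.countable_toSet _) fun t _ => ?_
    refine Set.Countable.biUnion (Finset.countable_toSet _) fun q _ => ?_
    exact Set.Countable.biUnion (Finset.countable_toSet _) fun q' _ => hg t q q'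
  · have h := hE (insert q (insert q' t)) (by
      intro z hz
      rw [Finset.coe_insert, Finset.coe_insert] at hz
      rcases hz with rfl | rfl | hz
      · exact hq
      · exact hq'
      · exact ht hz)
    refine subset_trans ?_ h
    intro z hz
    simp only [Set.mem_iUnion]
    refine ⟨t, ?_, q, ?_, q', ?_, hz⟩
    · rw [Finset.mem_coe, Finset.mem_powerset]
      exact (Finset.subset_insert _ _).trans (Finset.subset_insert _ _)
    · simp
    · simp

open Classical in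
theorem t_CLO : P_CLO := by
  intro p _ X W ι _ _ T κ Θ b π hπ
  -- choice of the witnesses
  obtain ⟨Hc, hHc⟩ : ∃ Hc : Finset W → (X → ZMod p) → Finset W, ∀ F u, JJ (fun x => (T x : Set W)) F u →
      (∀ t ∈ Hc F u, t ∉ F) ∧ ∀ x, u x ≠ 0 → (F : Set W) ⊆ T x ∧ ∃ t ∈ Hc F u, t ∈ T x := by
    have h : ∀ (F : Finset W) (u : X → ZMod p), ∃ H : Finset W, JJ (fun x => (T x : Set W)) F u →
        (∀ t ∈ H, t ∉ F) ∧ ∀ x, u x ≠ 0 → (F : Set W) ⊆ T x ∧ ∃ t ∈ H, t ∈ T x := by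
      intro F u
      by_cases hJ : JJ (fun x => (T x : Set W)) F u
      · obtain ⟨H, h1, h2⟩ := hJ
        exact ⟨H, fun _ => ⟨h1, h2⟩⟩
      · exact ⟨∅, fun h => absurd h hJ⟩
    choose Hc hHc using h
    exact ⟨Hc, hHc⟩
  let gR : (W ⊕ ((X → ZMod p) ⊕ (X → W))) → (X → ZMod p) :=
    fun q => Sum.elim (fun _ => 0) (fun q => Sum.elim id (fun _ => 0) q) q
  let gC : (W ⊕ ((X → ZMod p) ⊕ (X → W))) → (X → W) :=
    fun q => Sum.elim (fun _ => 0) (fun q => Sum.elim (fun _ => 0) id q) q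
  let gW : (W ⊕ ((X → ZMod p) ⊕ (X → W))) → W := fun q => Sum.elim id (fun _ => 0) q
  have hgR : ∀ r : X → ZMod p, gR (Sum.inr (Sum.inl r)) = r := fun r => rfl
  have hgC : ∀ r : X → W, gC (Sum.inr (Sum.inr r)) = r := fun r => rfl
  have hgW : ∀ w : W, gW (Sum.inl w) = w := fun w => rfl
  have c0 := CO.const (Ω := W ⊕ ((X → ZMod p) ⊕ (X → W))) {Sum.inr (Sum.inl 0), Sum.inr (Sum.inr 0)}
    ((Set.finite_singleton _).insert _).countable
  have c1 := CO.rule (Ω := W ⊕ ((X → ZMod p) ⊕ (X → W))) (fun _ q q' =>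
    {Sum.inr (Sum.inl (gR q + gR q')), Sum.inr (Sum.inl (- gR q)),
     Sum.inr (Sum.inr (gC q + gC q')), Sum.inr (Sum.inr (- gC q)),
     Sum.inr (Sum.inr (π (fun x => gR q x • gW q')))})
    (fun _ q q' => (Set.toFinite _).countable)
  have c2 := CO.rule (Ω := W ⊕ ((X → ZMod p) ⊕ (X → W))) (fun t q _ =>
    {Sum.inr (Sum.inl (κ t.toLeft (gR q))), Sum.inr (Sum.inl (ind (fun x => (T x : Set W)) t.toLeft (gR q))),
     Sum.inr (Sum.inl (Θ t.toLeft (gR q)))})
    (fun _ q q' => (Set.toFinite _).countable)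
  have c3 := CO.rule (Ω := W ⊕ ((X → ZMod p) ⊕ (X → W))) (fun t q _ =>
    Sum.inl '' (Hc t.toLeft (gR q) : Set W))
    (fun t q _ => ((Hc t.toLeft (gR q)).countable_toSet).image _)
  have c4 := CO.rule (Ω := W ⊕ ((X → ZMod p) ⊕ (X → W))) (fun _ q _ =>
    {z | gC q ∈ Fn T ∧ ((∃ x, z = Sum.inl (gC q x)) ∨
      ∃ l : W → ZMod p, z = Sum.inr (Sum.inl (fun x => l (gC q x))))})
    (by
      intro _ q _
      by_cases hq : gC q ∈ Fn T
      · have hfin : (Set.range (gC q)).Finite := hq.2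
        have h1 : (Set.range (fun x => (Sum.inl (gC q x) : W ⊕ ((X → ZMod p) ⊕ (X → W))))).Finite := by
          have := hfin.image (fun w => (Sum.inl w : W ⊕ ((X → ZMod p) ⊕ (X → W))))
          rw [← Set.range_comp] at this
          exact this
        have h2 : (Set.range (fun l : W → ZMod p =>
            (Sum.inr (Sum.inl (fun x => l (gC q x))) : W ⊕ ((X → ZMod p) ⊕ (X → W))))).Finite := by
          haveI : Finite (Set.range (gC q)) := hfin.to_subtype
          refine (Set.finite_range (fun m : Set.range (gC q) → ZMod p =>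
            (Sum.inr (Sum.inl (fun x => m ⟨gC q x, ⟨x, rfl⟩⟩)) : W ⊕ ((X → ZMod p) ⊕ (X → W))))).subset ?_
          rintro _ ⟨l, rfl⟩
          exact ⟨fun m => l m.1, rfl⟩
        refine ((h1.union h2).subset ?_).countable
        rintro z ⟨_, ⟨x, hx⟩ | ⟨l, hl⟩⟩
        · exact Or.inl ⟨x, hx.symm⟩
        · exact Or.inr ⟨l, hl.symm⟩
      · refine (Set.countable_empty).mono ?_
        rintro z ⟨h, _⟩
        exact hq h)
  have c5 := CO.rule (Ω := W ⊕ ((X → ZMod p) ⊕ (X → W))) (fun _ q _ =>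
    (fun i => Sum.inl (b i)) '' ((b.repr (gW q)).support : Set ι))
    (fun _ q _ => ((b.repr (gW q)).support.countable_toSet).image _)
  obtain ⟨F, hF, hFE⟩ := ((((c0.and c1).and c2).and c3).and c4).and c5
  refine ⟨F, hF, fun E hE => ?_⟩
  obtain ⟨⟨⟨⟨⟨h0, h1⟩, h2⟩, h3⟩, h4⟩, h5⟩ := hFE E hE
  have z1 : (Sum.inr (Sum.inl 0) : W ⊕ ((X → ZMod p) ⊕ (X → W))) ∈ E := h0 (by simp)
  have z2 : (Sum.inr (Sum.inr 0) : W ⊕ ((X → ZMod p) ⊕ (X → W))) ∈ E := h0 (by simp)
  let B : AddSubgroup (X → ZMod p) :=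
    { carrier := {r | Sum.inr (Sum.inl r) ∈ E}
      zero_mem' := z1
      add_mem' := by
        intro r r' hr hr'
        have := h1 ∅ (by simp) _ hr _ hr'
        exact this (by simp [hgR])
      neg_mem' := by
        intro r hr
        have := h1 ∅ (by simp) _ hr _ hr
        exact this (by simp [hgR]) }
  have hB : ∀ r, r ∈ B ↔ Sum.inr (Sum.inl r) ∈ E := fun r => Iff.rfl
  let C : AddSubgroup (X → W) :=
    { carrier := {f | f ∈ Fn T ∧ Sum.inr (Sum.inr f) ∈ E}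
      zero_mem' := ⟨(Fn T).zero_mem, z2⟩
      add_mem' := by
        intro r r' hr hr'
        refine ⟨(Fn T).add_mem hr.1 hr'.1, ?_⟩
        have := h1 ∅ (by simp) _ hr.2 _ hr'.2
        exact this (by simp [hgC])
      neg_mem' := by
        intro r hr
        refine ⟨(Fn T).neg_mem hr.1, ?_⟩
        have := h1 ∅ (by simp) _ hr.2 _ hr.2
        exact this (by simp [hgC]) }
  have hC : ∀ f, f ∈ C ↔ f ∈ Fn T ∧ Sum.inr (Sum.inr f) ∈ E := fun r => Iff.rfl
  -- finite subsets of `A`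
  have hFA : ∀ G : Finset W, (G : Set W) ⊆ {w | Sum.inl w ∈ E} →
      ∃ t : Finset (W ⊕ ((X → ZMod p) ⊕ (X → W))), (t : Set _) ⊆ E ∧ t.toLeft = G := by
    intro G hG
    refine ⟨G.image Sum.inl, ?_, ?_⟩
    · intro z hz
      rw [Finset.mem_coe, Finset.mem_image] at hz
      obtain ⟨w, hw, rfl⟩ := hz
      exact hG hw
    · ext w
      rw [Finset.mem_toLeft, Finset.mem_image]
      constructor
      · rintro ⟨w', hw', h⟩
        rw [← Sum.inl.inj h]
        exact hw'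
      · intro h
        exact ⟨w, h, rfl⟩
  refine ⟨B, C, ?_, hC⟩
  refine ⟨⟨?_, ?_, ?_⟩, ?_, ?_, ?_, ?_, ?_, ?_⟩
  · intro G hG u hu
    obtain ⟨t, ht, rfl⟩ := hFA G hG
    rw [hB] at hu ⊢
    exact h2 t ht _ hu _ hu (by simp [hgR])
  · intro G hG u hu
    obtain ⟨t, ht, rfl⟩ := hFA G hG
    rw [hB] at hu ⊢
    exact h2 t ht _ hu _ hu (by simp [hgR])
  · intro G hG u hu hJ
    obtain ⟨t, ht, rfl⟩ := hFA G hG
    rw [hB] at hu
    refine ⟨Hc t.toLeft u, ?_, hHc _ _ hJ⟩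
    intro w hw
    exact h3 t ht _ hu _ hu ⟨w, hw, rfl⟩
  · intro G hG r hr
    obtain ⟨t, ht, rfl⟩ := hFA G hG
    rw [hB] at hr ⊢
    exact h2 t ht _ hr _ hr (by simp [hgR])
  · intro c hc
    exact hc.1
  · intro c hc x
    exact h4 ∅ (by simp) _ hc.2 _ hc.2 ⟨hc.1, Or.inl ⟨x, rfl⟩⟩
  · intro c hc l
    exact h4 ∅ (by simp) _ hc.2 _ hc.2 ⟨hc.1, Or.inr ⟨l, rfl⟩⟩
  · intro t ht i hi
    refine h5 ∅ (by simp) _ ht _ ht ⟨i, ?_, rfl⟩
    rw [Finset.mem_coe, Finsupp.mem_support_iff]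
    exact hi
  · intro r hr i hi
    refine ⟨hπ _, ?_⟩
    exact h1 ∅ (by simp) _ hr _ hi (by simp [hgR, hgW])

end Pool.Agent.Q247.TM
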