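import Pool.Agent.Q28.TM.Stm

set_option autoImplicit false

/-!
Project TM (helper28), job FA: functions of finite range in an abelian group form a direct sum of cyclic groups
(assembly of P_SOC, P_BAS and P_KUL).
-/

namespace Pool.Agent.Q247.TM

open Pool.Agent.Q28.TM Pool.Agent.Helper316

/-- elements divisible by all powers of `q` in the socle are zero -/
theorem inf_zero (A : Type) [AddCommGroup A] (hred : ∀ a : A, a ≠ 0 → ∃ n : ℕ, 0 < n ∧ ∀ b : A, a ≠ n • b)
    (q : ℕ) [Fact q.Prime] (a : A) (hqa : q • a = 0) (h : ∀ n : ℕ, ∃ b : A, a = q ^ n • b) : a = 0 := by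
  by_contra hne
  obtain ⟨n0, hn0, hb⟩ := hred a hne
  obtain ⟨s, m, hm, rfl⟩ := Nat.exists_eq_pow_mul_and_not_dvd (n := n0) (by omega) q
    (Fact.out : q.Prime).one_lt.ne'
  obtain ⟨b, rfl⟩ := h s
  have h1 : q ^ (s + 1) • b = 0 := by
    rw [pow_succ', mul_smul]
    exact hqa
  have hc : Nat.Coprime m (q ^ (s + 1)) := by
    apply Nat.Coprime.pow_right
    rw [Nat.coprime_comm]
    exact ((Fact.out : q.Prime).coprime_iff_not_dvd).2 hm
  obtain ⟨u, v, huv⟩ := Nat.isCoprime_iff_coprime.2 hc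
  have h2 : b = m • (u • b) := by
    have h3 : b = (u * (m : ℤ) + v * ((q ^ (s + 1) : ℕ) : ℤ)) • b := by rw [huv, one_smul]
    rw [add_smul, mul_smul v, natCast_zsmul, h1, smul_zero, add_zero, mul_comm, mul_smul, natCast_zsmul] at h3
    exact h3
  apply hb (u • b)
  rw [mul_smul, ← h2]

section

variable {X A : Type} [AddCommGroup A] (T : X → AddSubgroup A) (q : ℕ)

/-- the `q`-socle of `A` -/
def Wq (A : Type) [AddCommGroup A] (q : ℕ) : AddSubgroup A := (nsmulAddMonoidHom (α := A) q).ker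

theorem mem_Wq {a : A} : a ∈ Wq A q ↔ q • a = 0 := by
  unfold Wq
  rw [AddMonoidHom.mem_ker]
  rfl

/-- the elements of `A` divisible by `q ^ n` -/
def Dv (A : Type) [AddCommGroup A] (q n : ℕ) : AddSubgroup A := (nsmulAddMonoidHom (α := A) (q ^ n)).range

theorem mem_Dv {n : ℕ} {a : A} : a ∈ Dv A q n ↔ ∃ b : A, a = q ^ n • b := by
  unfold Dv
  rw [AddMonoidHom.mem_range]
  constructor
  · rintro ⟨b, hb⟩
    exact ⟨b, hb.symm⟩
  · rintro ⟨b, hb⟩
    exact ⟨b, hb.symm⟩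

theorem Dv_anti : Antitone (Dv A q) := by
  apply antitone_nat_of_succ_le
  intro n a ha
  rw [mem_Dv] at ha ⊢
  obtain ⟨b, rfl⟩ := ha
  exact ⟨q • b, by rw [pow_succ, mul_smul]⟩

end

theorem bas_abs (h2 : P_BAS) (G V : Type) [AddCommGroup G] (q : ℕ) [Fact q.Prime] [AddCommGroup V]
    [Module (ZMod q) V] (ψ : V →+ G) (hinj : ∀ v, ψ v = 0 → v = 0) (hψ : ∀ a, q • a = 0 → ∃ v, ψ v = a)
    (S : ℕ → AddSubgroup V) (hS1 : Monotone S) (hS2 : ∀ v, ∃ n, v ∈ S n)
    (hS3 : ∀ n, ∀ v ∈ S n, (∃ g, ψ v = q ^ n • g) → v = 0) :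
    ∃ (I : Type) (h : I → ℕ) (e : I → G), (∀ i, q • e i = 0 ∧ ∃ g : G, e i = q ^ (h i) • g) ∧
      (∀ (n : ℕ) (a : G), q • a = 0 → (∃ g : G, a = q ^ n • g) →
        ∃ c : I →₀ ℤ, (∀ i, c i ≠ 0 → n ≤ h i) ∧ a = c.sum (fun i m => m • e i)) ∧
      (∀ c : I →₀ ℤ, c.sum (fun i m => m • e i) = 0 → ∀ i, ((q : ℕ) : ℤ) ∣ c i) := by
  obtain ⟨ι, h, e, he1, he2⟩ := h2 q V
    (fun n => AddSubgroup.toZModSubmodule q ((Dv G q n).comap ψ))
    (fun n => AddSubgroup.toZModSubmodule q (S n))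
    (by
      intro m n hmn
      exact fun w hw => Dv_anti q hmn hw)
    (by
      rw [eq_top_iff]
      intro v _
      show ψ v ∈ Dv G q 0
      rw [mem_Dv]
      exact ⟨ψ v, by rw [pow_zero, one_smul]⟩)
    (by
      intro m n hmn
      exact fun w hw => hS1 hmn hw)
    (by
      intro v
      obtain ⟨n, hn⟩ := hS2 v
      exact ⟨n, hn⟩)
    (by
      intro n v hv hv2
      exact hS3 n v hv ((mem_Dv q).1 hv2))
  have hqV : ∀ v : V, q • v = 0 := by
    intro v
    rw [← Nat.cast_smul_eq_nsmul (ZMod q)]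
    simp
  refine ⟨ι, h, fun i => ψ (e i), ?_, ?_, ?_⟩
  · intro i
    refine ⟨?_, ?_⟩
    · rw [← map_nsmul, hqV, map_zero]
    · exact (mem_Dv q).1 (he1 i)
  · intro n a ha hg
    obtain ⟨v, hv⟩ := hψ a ha
    have h4 := he2 n v (by
      show ψ v ∈ Dv G q n
      rw [mem_Dv, hv]
      exact hg)
    refine ⟨(e.repr v).mapRange (fun z : ZMod q => ((z.val : ℕ) : ℤ)) (by simp), ?_, ?_⟩
    · intro i hi
      apply h4 i
      intro h0
      apply hi
      rw [Finsupp.mapRange_apply, h0]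
      simp
    · have h5 := e.linearCombination_repr v
      rw [Finsupp.linearCombination_apply] at h5
      rw [Finsupp.sum_mapRange_index (by intro i; simp)]
      rw [← hv]
      conv_lhs => rw [← h5]
      rw [map_finsuppSum]
      refine Finsupp.sum_congr fun i _ => ?_
      have h7 : (e.repr v) i • e i = ((e.repr v) i).val • e i := by
        conv_lhs => rw [← ZMod.natCast_zmod_val ((e.repr v) i)]
        rw [Nat.cast_smul_eq_nsmul]
      rw [h7, map_nsmul, natCast_zsmul]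
  · intro c hc i
    have hli := linearIndependent_iff.1 e.linearIndependent (c.mapRange (fun z : ℤ => (z : ZMod q)) (by simp)) (by
      rw [Finsupp.linearCombination_apply, Finsupp.sum_mapRange_index (by intro i; simp)]
      apply hinj
      rw [map_finsuppSum, ← hc]
      refine Finsupp.sum_congr fun i _ => ?_
      rw [Int.cast_smul_eq_zsmul, map_zsmul])
    have h8 := DFunLike.congr_fun hli i
    rw [Finsupp.mapRange_apply, Finsupp.zero_apply] at h8
    exact (ZMod.intCast_zmod_eq_zero_iff_dvd _ _).1 h8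

theorem perprime (h1 : P_SOC) (h2 : P_BAS) (X A : Type) [AddCommGroup A] (T : X → AddSubgroup A)
    (hT : ∀ x, (T x : Set A).Finite)
    (hred : ∀ a : A, a ≠ 0 → ∃ n : ℕ, 0 < n ∧ ∀ b : A, a ≠ n • b) (q : ℕ) [Fact q.Prime] :
    ∃ (I : Type) (h : I → ℕ) (e : I → Fn T), (∀ i, q • e i = 0 ∧ ∃ g : Fn T, e i = q ^ (h i) • g) ∧
      (∀ (n : ℕ) (a : Fn T), q • a = 0 → (∃ g : Fn T, a = q ^ n • g) →
        ∃ c : I →₀ ℤ, (∀ i, c i ≠ 0 → n ≤ h i) ∧ a = c.sum (fun i m => m • e i)) ∧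
      (∀ c : I →₀ ℤ, c.sum (fun i m => m • e i) = 0 → ∀ i, ((q : ℕ) : ℤ) ∣ c i) := by
  letI iW : Module (ZMod q) (Wq A q) := AddCommGroup.zmodModule (n := q) (by
    intro x
    apply Subtype.ext
    have := (mem_Wq q).1 x.2
    simpa using this)
  letI iV : Module (ZMod q) (Wq (Fn T) q) := AddCommGroup.zmodModule (n := q) (by
    intro x
    apply Subtype.ext
    have := (mem_Wq q).1 x.2
    simpa using this)
  -- the first filtration
  obtain ⟨S, hS1, hS2, hS3, hS4⟩ := h1 q X (Wq A q) (fun x => (T x).comap (Wq A q).subtype)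
    (fun n => AddSubgroup.toZModSubmodule q ((Dv A q n).comap (Wq A q).subtype))
    (by
      intro x
      exact Set.Finite.preimage (f := (Subtype.val : Wq A q → A)) (Subtype.val_injective.injOn) (hT x))
    (by
      intro m n hmn
      exact fun w hw => Dv_anti q hmn hw)
    (by
      intro w hw
      apply Subtype.ext
      refine inf_zero A hred q w.1 ((mem_Wq q).1 w.2) fun n => ?_
      exact (mem_Dv q).1 (hw n))
  -- the map from the socle of `Fn T`
  have hval : ∀ (f : Wq (Fn T) q) (x : X), (f.1.1 x) ∈ Wq A q := by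
    intro f x
    rw [mem_Wq]
    have h := (mem_Wq q).1 f.2
    have h' := congrFun (congrArg Subtype.val h) x
    exact h'
  let φ : Wq (Fn T) q →+ (X → Wq A q) :=
    { toFun := fun f x => ⟨f.1.1 x, hval f x⟩
      map_zero' := rfl
      map_add' := fun f g => rfl }
  have hφ : ∀ f x, ((φ f x : Wq A q) : A) = f.1.1 x := fun f x => rfl
  have hφinj : ∀ f, φ f = 0 → f = 0 := by
    intro f hf
    apply Subtype.ext
    apply Subtype.ext
    funext x
    have := congrArg Subtype.val (congrFun hf x)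
    exact this
  have hφF : ∀ f, φ f ∈ Fn (fun x => (T x).comap (Wq A q).subtype) := by
    intro f
    constructor
    · intro x
      exact f.1.2.1 x
    · have h := f.1.2.2
      have h3 : Set.range (φ f) ⊆ Subtype.val ⁻¹' (Set.range f.1.1) := by
        rintro _ ⟨x, rfl⟩
        exact ⟨x, rfl⟩
      exact (h.preimage (Subtype.val_injective.injOn)).subset h3
  refine bas_abs h2 (Fn T) (Wq (Fn T) q) q (Wq (Fn T) q).subtype ?_ ?_ (fun n => (S n).comap φ) ?_ ?_ ?_
  · intro v hv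
    exact Subtype.ext hv
  · intro a ha
    exact ⟨⟨a, (mem_Wq q).2 ha⟩, rfl⟩
  · intro m n hmn
    exact AddSubgroup.comap_mono (hS1 hmn)
  · intro v
    obtain ⟨n, hn⟩ := hS3 (φ v) (hφF v)
    exact ⟨n, hn⟩
  · rintro n v hv ⟨g, hg⟩
    apply hφinj
    apply hS4 n _ hv
    intro x
    show ((φ v x : Wq A q) : A) ∈ Dv A q n
    rw [mem_Dv]
    refine ⟨g.1 x, ?_⟩
    have hg' : v.1 = q ^ n • g := hg
    rw [hφ, hg']
    rfl

theorem t_FA (h1 : P_SOC) (h2 : P_BAS) (h3 : P_KUL) : P_FA := by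
  intro X A _ T hT htor hred
  have hp : ∀ q : Nat.Primes, ∃ (I : Type) (h : I → ℕ) (e : I → Fn T),
      (∀ i, (q : ℕ) • e i = 0 ∧ ∃ g : Fn T, e i = (q : ℕ) ^ (h i) • g) ∧
      (∀ (n : ℕ) (a : Fn T), (q : ℕ) • a = 0 → (∃ g : Fn T, a = (q : ℕ) ^ n • g) →
        ∃ c : I →₀ ℤ, (∀ i, c i ≠ 0 → n ≤ h i) ∧ a = c.sum (fun i m => m • e i)) ∧
      (∀ c : I →₀ ℤ, c.sum (fun i m => m • e i) = 0 → ∀ i, ((q : ℕ) : ℤ) ∣ c i) := by
    intro q
    haveI : Fact (q : ℕ).Prime := ⟨q.2⟩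
    exact perprime h1 h2 X A T hT hred q
  choose I h e he1 he2 he3 using hp
  refine h3 (Fn T) I h e ?_ he1 he2 he3
  intro f
  choose n hn0 hn using htor
  refine ⟨∏ a ∈ f.2.2.toFinset, n a, Finset.prod_pos fun a _ => hn0 a, ?_⟩
  apply Subtype.ext
  funext x
  show (∏ a ∈ f.2.2.toFinset, n a) • f.1 x = 0
  have hx : f.1 x ∈ f.2.2.toFinset := by
    rw [Set.Finite.mem_toFinset]
    exact ⟨x, rfl⟩
  obtain ⟨k, hk⟩ := Finset.dvd_prod_of_mem n hx
  rw [hk, mul_comm, mul_smul, hn, smul_zero]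

end Pool.Agent.Q247.TM
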